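import Pool.Agent.H449.G6

/-!
# Unique factorisation in real quadratic fields of even discriminant with a short period

Let `d ≡ 2, 3 (mod 4)` be squarefree and positive, and suppose that the ring of integers
`ℤ[√d]` of `ℚ(√d)` is a unique factorisation domain. If the period of the continued fraction of
`√d` has length at most eight, then `d` is one of 28 explicit numbers. There is no exceptional
field and no hypothesis.

The period is symmetric about the ambiguous form of value `2`. Periods of length at most eight
form finitely many families with one parameter (the smallest solution of `X ^ 2 - d Y ^ 2 = ±2`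
has `Y ≤ 1000`) and two families with two parameters, of periods

* `b, 2b, a, 2b, b, 2a` with `s = 2bk + 1`, `a = bs + k`, `d = a ^ 2 + 2s`;
* `v-1, 1, 2v-1, a, 2v-1, 1, v-1, 2a` with `s = 2vk - 1`, `a = vs - k`, `d = a ^ 2 + 2s`,

and all of them are settled by relations between values of partial zeta functions (Biro's method)
modulo the primes 3, 5, 7, 13, 19, 37, 61, 73.
-/

namespace Pool.Agent.Results.MP_321647_nt.EvenDiscriminantPeriodEight

/-- The next complete quotient of the simple continued fraction of a real number. -/
noncomputable def nextQ (x : ℝ) : ℝ := (Int.fract x)⁻¹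

/-- The period length of the simple continued fraction of `x`: the least `l ≥ 1` such that
the complete quotients with indices `l + 1` and `1` agree (and `0` if there were none). -/
noncomputable def perLen (x : ℝ) : ℕ := sInf {l : ℕ | 0 < l ∧ nextQ^[l + 1] x = nextQ x}

theorem result (d : ℕ) (hd : Squarefree d) (hd4 : d % 4 = 2 ∨ d % 4 = 3)
    (K : Type*) [Field K] [NumberField K] (hK : Module.finrank ℚ K = 2)
    (x : K) (hx : x ^ 2 = (d : K))
    (hufd : UniqueFactorizationMonoid (NumberField.RingOfIntegers K))
    (hper : perLen (√(d : ℝ)) ≤ 8) :
    d ∈ ([2, 3, 6, 7, 11, 14, 19, 22, 23, 31, 38, 47, 59, 62, 71, 83, 107, 131, 158, 167, 206,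
      227, 278, 383, 398, 503, 743, 983] : List ℕ) := by
  have hcl : NumberField.classNumber K = 1 := by
    rw [NumberField.classNumber_eq_one_iff]
    exact IsPrincipalIdealRing.of_isDedekindDomain_of_uniqueFactorizationMonoid _
  have hp : Pool.Agent.H449.perLen (√((d : ℤ) : ℝ)) ≤ 8 := by
    rw [Int.cast_natCast]
    exact hper
  exact Pool.Agent.H449.period_eight (Int.squarefree_natCast.mpr hd) hd4 hK
    (by rw [hx]; push_cast; rfl) hcl hp

end Pool.Agent.Results.MP_321647_nt.EvenDiscriminantPeriodEight
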