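import Mathlib
import Pool.Agent.H482.QO.Q12

/-!
# Real quadratic orders of prime conductor: class number one and unique lengths of factorisations

There is a finite set `U` of primes with the following property.  Let `N` be a finite set of squarefree
integers `d > 1` for which `ℚ(√d)` has a unit of norm `-1`, free over `U` (no product of distinct
elements of `N` is a square times a product of primes of `U`; for instance one such `d` which does not
divide the product of the primes of `U`, or any finite set of primes `1 mod 4` outside `U`).  Then there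
are infinitely many primes `p`, in fact at least `δ x / log² x` up to `x` for arbitrarily large `x`, also
in prescribed classes, inert in all the fields `K = ℚ(√d)`, `d ∈ N`, such that for all `d ∈ N` the order
`ℤ + p 𝓞` of `K`

* has the same class group as the maximal order `𝓞` (relative class number one),
* meets every class of associated elements of `𝓞`,
* is half-factorial exactly if `𝓞` is,
* has class number one and is half-factorial if `𝓞` has unique factorisation.

The proof: the class group and the factorisations of the order are controlled by the order of the unit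
of norm `-1` in the residue field with `p ^ 2` elements, which has to be `2 (p + 1)`; primes
with this property are found by the methods of Gupta, Murty and Heath-Brown (the lower bound sieve with
the Bombieri-Vinogradov theorem, applied to `p + 1`, and the count of the primes for which a group
generated by several independent units has a small reduction), together with a compactness argument in
the set of the fields.
-/

set_option autoImplicit false

namespace Pool.Agent.Results.MP_321647_nt.OrdersOfPrimeConductor

open Finset NumberField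

/-- The order `ℤ + f 𝓞` of conductor `f` of a quadratic field `K`. -/
def order (K : Type) [Field K] [NumberField K] (f : ℕ) : Subring (𝓞 K) where
  carrier := {x | ∃ (n : ℤ) (y : 𝓞 K), x = n + f * y}
  mul_mem' := by
    rintro _ _ ⟨n, y, rfl⟩ ⟨m, z, rfl⟩
    exact ⟨n * m, n * z + m * y + f * y * z, by push_cast; ring⟩
  one_mem' := ⟨1, 0, by simp⟩
  add_mem' := by
    rintro _ _ ⟨n, y, rfl⟩ ⟨m, z, rfl⟩
    exact ⟨n + m, y + z, by push_cast; ring⟩
  zero_mem' := ⟨0, 0, by simp⟩
  neg_mem' := by
    rintro _ ⟨n, y, rfl⟩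
    exact ⟨-n, -y, by push_cast; ring⟩

/-- Every element which is not zero and not a unit is a product of irreducible elements, and the number
of the factors is the same in all such products. -/
def HalfFactorial (R : Type) [CommRing R] : Prop :=
  (∀ a : R, a ≠ 0 → ¬ IsUnit a → ∃ s : Multiset R, (∀ b ∈ s, Irreducible b) ∧ s.prod = a) ∧
  ∀ s t : Multiset R, (∀ b ∈ s, Irreducible b) → (∀ b ∈ t, Irreducible b) → s.prod = t.prod →
    s.card = t.card

/-- `K` is the field `ℚ(√d)` (for `d > 1` squarefree). -/
def IsQuadratic (K : Type) [Field K] [NumberField K] (d : ℕ) : Prop :=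
  Module.finrank ℚ K = 2 ∧ ∃ s : K, s ^ 2 = d

/-- The prime `p` is inert in `K` and the order of conductor `p` of `K` has the class group of the maximal
order (the isomorphism being the extension of ideals) and contains a unit multiple of every integer of
`K`; it is half-factorial exactly if the maximal order is; and if the maximal order has unique
factorisation, then the order has class number one and is half-factorial. -/
def LikeMaximal (K : Type) [Field K] [NumberField K] (p : ℕ) : Prop :=
  (Ideal.span {(p : 𝓞 K)}).IsPrime ∧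
  Function.Bijective (ClassGroup.extendedHom (order K p) (𝓞 K)) ∧
  (∀ x : 𝓞 K, ∃ u : (𝓞 K)ˣ, (u : 𝓞 K) * x ∈ order K p) ∧
  (HalfFactorial (order K p) ↔ HalfFactorial (𝓞 K)) ∧
  (UniqueFactorizationMonoid (𝓞 K) →
    Subsingleton (ClassGroup (order K p)) ∧ HalfFactorial (order K p))

open Classical in
/-- The primes `p ≤ x`, `p ≡ c mod 8`, `p ≡ a mod M`, such that the order of conductor `p` of every field
`ℚ(√d)`, `d ∈ N`, behaves like the maximal order. -/
noncomputable def good (c : ℕ) (N : Finset ℕ) (M a x : ℕ) : Finset ℕ :=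
  (Icc 1 x).filter (fun p => p.Prime ∧ p % 8 = c ∧ p ≡ a [MOD M] ∧
    ∀ d ∈ N, ∀ (K : Type) [Field K] [NumberField K], IsQuadratic K d → LikeMaximal K p)

/-- `N` is free over `U`: in every product of distinct elements of `N` some prime outside `U` has an odd
exponent. -/
def Free (U N : Finset ℕ) : Prop :=
  ∀ S ⊆ N, S.Nonempty → ∃ l : ℕ, l.Prime ∧ l ∉ U ∧ Odd ((∏ d ∈ S, d).factorization l)

/-- **Main theorem.** -/
theorem result : ∃ U : Finset ℕ, (∀ u ∈ U, u.Prime) ∧
    ∀ c : ℕ, (c = 3 ∨ c = 7) → ∀ N : Finset ℕ,
      (∀ d ∈ N, 1 < d ∧ Squarefree d ∧ ∃ t y : ℕ, t ^ 2 + 4 = d * y ^ 2) → Free U N →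
      ∀ M a : ℕ, M ≠ 0 → (∀ u ∈ U, ¬ u ∣ M) → (∀ d ∈ N, d.Coprime M) → a.Coprime M →
      (∀ q : ℕ, q.Prime → q ∣ M → ¬ q ∣ a + 1) →
      ∃ δ : ℝ, 0 < δ ∧ ∀ X : ℕ, ∃ x : ℕ, X ≤ x ∧
        δ * (x / (Real.log x) ^ 2) ≤ ((good c N M a x).card : ℝ) := by
  classical
  obtain ⟨U, hU⟩ := Pool.Agent.H482.QO.exists_Univ
  refine ⟨U, hU.2.2.1, ?_⟩
  intro c hc N hN hF M a hM0 hMU hMN haM haq
  have hN' : ∀ d : ℕ, ∃ t : ℕ, d ∈ N → 1 ≤ t ∧ ∃ y : ℕ, t ^ 2 + 4 = d * y ^ 2 := by
    intro d
    by_cases hd : d ∈ N
    · obtain ⟨hd1, hsq, t, y, hty⟩ := hN d hd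
      refine ⟨t, fun _ => ⟨?_, y, hty⟩⟩
      by_contra ht
      have ht0 : t = 0 := by omega
      rw [ht0] at hty
      have hy2 : y ≤ 2 := by
        by_contra h
        push Not at h
        nlinarith
      interval_cases y
      · omega
      · have hd4 : d = 4 := by omega
        rw [hd4] at hsq
        exact absurd (hsq 2 (by norm_num)) (by
          rw [Nat.isUnit_iff]
          norm_num)
      · omega
    · exact ⟨0, fun h => absurd h hd⟩
  choose t ht using hN'
  have hInd : Pool.Agent.H482.QO.Indep U N :=
    ⟨fun d hd => by have := (hN d hd).1; omega, hF⟩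
  obtain ⟨δ, hδ, h⟩ := Pool.Agent.H482.QO.ext_core hU c hc N t ht hInd M a hM0 hMU haM (by
    intro q hq h1
    have hqp := Nat.prime_of_mem_primeFactors hq
    apply haq q hqp (Nat.dvd_of_mem_primeFactors hq)
    have h2 := Nat.div_add_mod a q
    have h3 := hqp.two_le
    rw [← h2, h1]
    exact ⟨a / q + 1, by rw [mul_add]; omega⟩) (by
    intro d hd q hq hqd
    have hqp := Nat.prime_of_mem_primeFactors hq
    exact Nat.not_coprime_of_dvd_of_dvd hqp.one_lt hqd (Nat.dvd_of_mem_primeFactors hq) (hMN d hd))
  refine ⟨δ, hδ, fun X => ?_⟩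
  obtain ⟨x, hx1, hx2⟩ := (h.and_eventually (Filter.eventually_ge_atTop X)).exists
  refine ⟨x, hx2, hx1.le.trans ?_⟩
  rw [Nat.cast_le]
  apply card_le_card
  intro p hp
  unfold Pool.Agent.H482.QO.Exs at hp
  unfold good
  rw [mem_filter] at hp ⊢
  obtain ⟨hpx, hpp, hpc, hpa, hpN⟩ := hp
  refine ⟨hpx, hpp, hpc, hpa, ?_⟩
  intro d hd K _ _ hK
  obtain ⟨hK2, s, hs⟩ := hK
  obtain ⟨hj, hG⟩ := hpN d hd
  obtain ⟨y, hty⟩ := (ht d hd).2
  have hp4 : p % 4 = 3 := by
    rcases hc with rfl | rfl <;> omega
  obtain ⟨h1, h2, h3, h4, h5⟩ :=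
    Pool.Agent.H482.QO.main hK2 p hpp hp4 d (t d) y s hs hj hty hG
  exact ⟨h1, h3, h2, h4, h5⟩

end Pool.Agent.Results.MP_321647_nt.OrdersOfPrimeConductor
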