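import Pool.Agent.H449.O8

/-!
# Unique factorisation in real quadratic fields of odd discriminant with a small ramified prime

Let `d ≡ 1 (mod 4)` be squarefree, `K = ℚ(√d)`, and let `p ≡ 3 (mod 4)` be a prime `p < 100`
which divides `d`. Suppose that the ring of integers of `K` is a unique factorisation domain and
that the Pell equation `T ^ 2 - d U ^ 2 = 4` has a solution in positive integers with
`T ≤ 10000 d / p`. Then `d` is one of 71 explicit numbers. There is no exceptional field and no
hypothesis.

The prime above `p` is principal; the smallest solution of `X ^ 2 - d Y ^ 2 = ±4p` has `Y ≤ 100`,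
and the solutions with a given `Y` form finitely many families with one parameter (1689 for all
the `p`), in which the principal cycle of forms is symmetric about the ambiguous form of value
`p`. All families are settled by relations between values of partial zeta functions (Biro's
method) modulo the primes 3, 5, 7, 13, 19, 37, 61, 73, 127.
-/

namespace Pool.Agent.Results.MP_321647_nt.SmallRamifiedPrime

theorem result (d p : ℕ) (hd : Squarefree d) (hd4 : d % 4 = 1) (hp : p.Prime) (hp4 : p % 4 = 3)
    (hp100 : p < 100) (hpd : p ∣ d)
    (K : Type*) [Field K] [NumberField K] (hK : Module.finrank ℚ K = 2)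
    (x : K) (hx : x ^ 2 = (d : K))
    (hufd : UniqueFactorizationMonoid (NumberField.RingOfIntegers K))
    (T U : ℕ) (hU : 0 < U) (hT : T ^ 2 = d * U ^ 2 + 4) (hTd : p * T ≤ 10000 * d) :
    d ∈ ([21, 33, 57, 69, 77, 93, 129, 133, 141, 161, 177, 209, 213, 237, 253, 301, 309, 341, 381, 413, 437, 453, 501, 517, 573, 581, 597, 669, 717, 749, 789, 813, 869, 893, 917, 933, 989, 1077, 1133, 1253, 1293, 1317, 1333, 1349, 1389, 1397, 1437, 1757, 1797, 1893, 2189, 2253, 2453, 2573, 2757, 2933, 3053, 3093, 3101, 3197, 3317, 3437, 4037, 4413, 4613, 5277, 5493, 6117, 6677, 6797, 10757] : List ℕ) := by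
  have hcl : NumberField.classNumber K = 1 := by
    rw [NumberField.classNumber_eq_one_iff]
    exact IsPrincipalIdealRing.of_isDedekindDomain_of_uniqueFactorizationMonoid _
  exact Pool.Agent.H449.small_ramified (Int.squarefree_natCast.mpr hd) hd4 hp hp4 hp100 hpd hK
    (by rw [hx]; push_cast; rfl) hcl hU (by rw [← pow_two, ← pow_two]; exact hT) hTd

end Pool.Agent.Results.MP_321647_nt.SmallRamifiedPrime
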