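import Pool.Agent.H449.E6

/-!
# Unique factorisation in real quadratic fields of even discriminant with a small unit

Let `d ≡ 2, 3 (mod 4)` be squarefree and positive, and suppose that the ring of integers
`ℤ[√d]` of `ℚ(√d)` is a unique factorisation domain. If the Pell equation
`T ^ 2 = d * U ^ 2 + 1` has a solution with `U ≥ 1` and `T ≤ 10 ^ 6 * d`, then `d` is one of 75
explicit numbers.

Since `2` is ramified, `X ^ 2 - d * Y ^ 2 = ±2` is solvable, and the smallest solution has
`Y ≤ 1000`; this gives 706 infinite families of `d` (two of them are `x ^ 2 ± 2`), each of which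
is settled by relations between values of partial zeta functions (Biro's method) modulo several
small primes.
-/

namespace Pool.Agent.Results.MP_321647_nt.SmallUnitsEvenDiscriminant

theorem result (d : ℕ) (hd : Squarefree d) (hd4 : d % 4 = 2 ∨ d % 4 = 3)
    (K : Type*) [Field K] [NumberField K] (hK : Module.finrank ℚ K = 2)
    (x : K) (hx : x ^ 2 = (d : K))
    (hufd : UniqueFactorizationMonoid (NumberField.RingOfIntegers K))
    (T U : ℕ) (hU : 0 < U) (h : T ^ 2 = d * U ^ 2 + 1) (hT : T ≤ 10 ^ 6 * d) :
    d ∈ ([2, 3, 6, 7, 11, 14, 19, 22, 23, 31, 38, 43, 46, 47, 59, 62, 67, 71, 83, 86, 94, 103,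
      107, 118, 127, 131, 134, 139, 158, 163, 167, 179, 191, 206, 227, 239, 251, 262, 263, 278,
      283, 302, 307, 311, 347, 383, 398, 419, 422, 431, 446, 467, 479, 503, 542, 563, 566, 587,
      647, 683, 734, 743, 758, 827, 878, 887, 983, 998, 1142, 1238, 1307, 1319, 1382, 1487,
      1718] : List ℕ) := by
  have hcl : NumberField.classNumber K = 1 := by
    rw [NumberField.classNumber_eq_one_iff]
    exact IsPrincipalIdealRing.of_isDedekindDomain_of_uniqueFactorizationMonoid _
  exact Pool.Agent.H449.small_unit (u := T) (v := U) (Int.squarefree_natCast.mpr hd) hd4 hK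
    (by rw [hx]; push_cast; rfl) hcl hU (by rw [← pow_two, ← pow_two]; exact h)
    (by norm_num at hT; exact hT)

end Pool.Agent.Results.MP_321647_nt.SmallUnitsEvenDiscriminant
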